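import Pool.Agent.N226.SX.St
import Pool.Agent.Results.MP_376faf_co.AllOrders

/-!
Self-avoiding polygons on the square lattice: asymptotic forms and expansions of their numbers along
sparse perimeters.
-/

set_option autoImplicit false

open Filter Topology

namespace Pool.Agent.Results.MP_376faf_co.ExpansionsFromSparsePerimeters

/-- the number of `n`-step self-avoiding walks on `ℤ²` started at the origin -/
noncomputable def c (n : ℕ) : ℕ :=
  Nat.card {f : Fin (n + 1) → ℤ × ℤ // f 0 = 0 ∧ Function.Injective f ∧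
    ∀ i : Fin n, |(f i.succ).1 - (f i.castSucc).1| + |(f i.succ).2 - (f i.castSucc).2| = 1}

/-- the number of self-avoiding polygons of perimeter `2n` on `ℤ²` up to translation: the number
of injective nearest-neighbour closed loops `f : ℤ/2n → ℤ²` with `f 0 = 0`, divided by `4n` (the
choices of the starting point and of the orientation) -/
noncomputable def p (n : ℕ) : ℝ :=
  ((Nat.card {f : ZMod (2*n) → ℤ × ℤ // f 0 = 0 ∧ Function.Injective f ∧
    ∀ i : ZMod (2*n), |(f (i+1)).1 - (f i).1| + |(f (i+1)).2 - (f i).2| = 1} : ℕ) : ℝ)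
    / (4 * (n:ℝ))

/-- the expansion `-θ log n + ∑ c_i n ^ (-θ_i)` -/
noncomputable def expansion (q : ℕ) (θ : ℝ) (b e : Fin q → ℝ) (n : ℕ) : ℝ :=
  -θ * Real.log n + ∑ i, b i * (n : ℝ) ^ (-(e i))

/-- the difference of order `r` of the sequence `f` at `n` (up to the sign `(-1)^r`) -/
noncomputable def diff (r : ℕ) (f : ℕ → ℝ) (n : ℕ) : ℝ :=
  ∑ i ∈ Finset.range (r + 1), (-1 : ℝ) ^ i * (r.choose i : ℝ) * f (n + i)

/-- **Theorem.** Let `μ` be the connective constant of `ℤ²` and `p_{2n}` the number of self-avoiding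
polygons of perimeter `2n` up to translation. Let `u_j → ∞` be integers with gaps at most `u_j ^ α`
for some `α < 1 / 2` (for instance `u_j = ⌊j ^ 1.99⌋`). Let
`log (p_{2n} / μ^(2n)) = -θ log n + ∑ b_i n^(-e_i) + O(n^(-M))` along `n = u_j`, a finite expansion
with any real exponents `θ`, `e_i ≥ 0` and `M ≥ 0`. Then for every `s ≥ 0` and `t < 1/2` the `s`-th
difference of `log (p_{2n} / μ^(2n)) + θ log n - ∑ b_i n^(-e_i)` is `O(n^(-M - t s))`, along all `n`.
For `s = 0` the expansion holds for all `n` with the same error term; for `s = 1` it gives the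
expansion of the ratios `p_{2n+2} / p_{2n}`, with a smaller error term. -/
theorem result : ∃ μ : ℝ, 0 < μ ∧
    Tendsto (fun n : ℕ => (c n : ℝ) ^ ((1:ℝ) / (n : ℝ))) atTop (𝓝 μ) ∧
    ∀ (α : ℝ), 0 ≤ α → α < 1 / 2 → ∀ u : ℕ → ℕ, Tendsto u atTop atTop →
      (∀ᶠ j : ℕ in atTop, (u (j + 1) : ℝ) ≤ u j + (u j : ℝ) ^ α) →
      ∀ (q : ℕ) (θ : ℝ) (b e : Fin q → ℝ), (∀ i, 0 ≤ e i) → ∀ M : ℝ, 0 ≤ M →
        (∃ C : ℝ, ∀ᶠ j : ℕ in atTop,
          |Real.log (p (u j) / μ ^ (2 * u j)) - expansion q θ b e (u j)| ≤ C * (u j : ℝ) ^ (-M)) →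
        ∀ (s : ℕ) (t : ℝ), 0 ≤ t → t < 1 / 2 → ∃ C : ℝ, ∀ᶠ n : ℕ in atTop,
          |diff s (fun n => Real.log (p n / μ ^ (2 * n)) - expansion q θ b e n) n| ≤
            C * (n : ℝ) ^ (-(M + t * s)) := by
  obtain ⟨μ, hμ, hlim, h⟩ := Pool.Agent.Results.MP_376faf_co.AllOrders.result
  refine ⟨μ, hμ, hlim, ?_⟩
  intro α hα0 hα u hu hgap q θ b e he M hM hval s t ht0 ht
  have hreg := Pool.Agent.N226.SX.reg_of_log_st
    (f := fun n => Real.log (p n / μ ^ (2 * n))) 1 le_rfl 0 fun r hr => by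
      obtain ⟨K, hK⟩ := h r hr
      refine ⟨K, (eventually_ge_atTop 2).mono fun n hn => ?_⟩
      have h1 := hK n hn
      simp only [Pool.Agent.N226.SX.Ds, one_mul]
      exact h1
  have h2 := Pool.Agent.N226.SX.main_st (by norm_num)
      (f := fun n => Real.log (p n / μ ^ (2 * n))) 1 le_rfl 0 hreg
      q (-θ) b e he M α hM hα0 hα u hu hgap (by
        simp only [one_mul, add_zero]
        exact hval) s t ht0 ht
  simp only [one_mul, add_zero, Pool.Agent.N226.SX.Ds] at h2
  exact h2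

end Pool.Agent.Results.MP_376faf_co.ExpansionsFromSparsePerimeters
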