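import Pool.Agent.H16TT.Taub
import Pool.Agent.H16TT.App

/-!
# Self-avoiding polygons: the generating function near its critical point determines the coefficients

Let `b n = p n / μ ^ (2 n)`, where `p n` is the number of self-avoiding polygons of perimeter `2 n` on `ℤ²` up to
translation and `μ` the connective constant, and `F(s) = ∑ b n e ^ (-n s)`, `Re s > 0`, the generating function. It is a
starting result that the differences of all orders of `log (b n)` are small, `O((log n / √n) ^ r)`.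

* **Localization.** For all `0 < α < γ < 1 / 2` and `M` one has
  `b N = ∫_{|θ| ≤ N ^ (-α)} F(1 / N + i θ) k_N(θ) dθ + O(N ^ (-M))` with the explicit kernel
  `k_N(θ) = (1 - (1 - A ^ Q) ^ Q) z ^ N / (2 π)`, `z = exp (1 / N + i θ)`, `A = (1 / w) ∑_{j < w} z ^ j`,
  `w = ⌊N ^ γ⌋`. So the values of the generating function on an interval of length `2 N ^ (-α)` near the critical point
  determine the number of polygons of perimeter `2 N` up to `O(μ ^ (2 N) N ^ (-M))`.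
* **Tauberian theorem.** Let `e n = ∑ a_i n ^ (-e_i)` be a finite sum and `β < k`. If
  `∑ n ^ k (b n - e n) e ^ (-n s)` is `o(|s| ^ (-(k - β + 1)))` as `s → 0` in the region
  `0 < Re s`, `|Im s| ≤ (Re s) ^ α`, then `b n - e n = o(n ^ (-β))`; the same with `O`.
-/

set_option autoImplicit false

open Filter Topology MeasureTheory

namespace Pool.Agent.Results.MP_376faf_co.GeneratingFunctionWindow

/-- the number of `n`-step self-avoiding walks on `ℤ²` started at the origin -/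
noncomputable def c (n : ℕ) : ℕ :=
  Nat.card {f : Fin (n + 1) → ℤ × ℤ // f 0 = 0 ∧ Function.Injective f ∧
    ∀ i : Fin n, |(f i.succ).1 - (f i.castSucc).1| + |(f i.succ).2 - (f i.castSucc).2| = 1}

/-- the number of self-avoiding polygons of perimeter `2n` on `ℤ²` up to translation: the number
of injective nearest-neighbour closed loops `f : ℤ/2n → ℤ²` with `f 0 = 0`, divided by `4n` (the
choices of the starting point and of the orientation) -/
noncomputable def p (n : ℕ) : ℝ :=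
  ((Nat.card {f : ZMod (2*n) → ℤ × ℤ // f 0 = 0 ∧ Function.Injective f ∧
    ∀ i : ZMod (2*n), |(f (i+1)).1 - (f i).1| + |(f (i+1)).2 - (f i).2| = 1} : ℕ) : ℝ)
    / (4 * (n:ℝ))

/-- `b n = p n / μ ^ (2 n)` -/
noncomputable def b (μ : ℝ) (n : ℕ) : ℝ := p n / μ ^ (2 * n)

/-- the generating function `∑ g n e ^ (-n s)` of a sequence `g` -/
noncomputable def gf (g : ℕ → ℝ) (s : ℂ) : ℂ := ∑' n : ℕ, (g n : ℂ) * Complex.exp (-(n * s))

/-- the point `1 / N + i θ` -/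
noncomputable def pt (N : ℕ) (θ : ℝ) : ℂ := (1 / (N : ℝ) : ℝ) + θ * Complex.I

/-- the average `(1 / w) ∑_{j < w} z ^ j` -/
noncomputable def average (w : ℕ) (z : ℂ) : ℂ := (∑ j ∈ Finset.range w, z ^ j) / w

/-- the kernel `(1 - (1 - A ^ Q) ^ Q) z ^ N / (2 π)`, `z = exp (1 / N + i θ)`, `A` the average of the `z ^ j`,
`j < ⌊N ^ γ⌋` -/
noncomputable def kernel (γ : ℝ) (Q N : ℕ) (θ : ℝ) : ℂ :=
  (1 - (1 - average ⌊(N : ℝ) ^ γ⌋₊ (Complex.exp (pt N θ)) ^ Q) ^ Q) * Complex.exp (pt N θ) ^ N /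
    (2 * Real.pi)

/-- the comparison sequence `∑ a_i n ^ (-e_i)` -/
noncomputable def comparison {m : ℕ} (a e : Fin m → ℝ) (n : ℕ) : ℝ := ∑ i, a i * (n : ℝ) ^ (-(e i))

/-- the region `0 < Re s < s₀`, `|Im s| ≤ (Re s) ^ α` -/
def region (α s₀ : ℝ) : Set ℂ := {s | 0 < s.re ∧ s.re < s₀ ∧ |s.im| ≤ s.re ^ α}

/-- `∑ n ^ k (b n - ∑ a_i n ^ (-e_i)) e ^ (-n s)`, the `k`-th derivative (up to the sign) of the difference of the
generating function of polygons and that of the comparison sequence -/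
noncomputable def diffGF (μ : ℝ) (k : ℕ) {m : ℕ} (a e : Fin m → ℝ) (s : ℂ) : ℂ :=
  gf (fun n => (n : ℝ) ^ k * (b μ n - comparison a e n)) s

/-- **Theorem.** -/
theorem result : ∃ μ : ℝ, 0 < μ ∧
    Tendsto (fun n : ℕ => (c n : ℝ) ^ ((1 : ℝ) / (n : ℝ))) atTop (𝓝 μ) ∧
    (∀ α γ : ℝ, 0 < α → α < γ → γ < 1 / 2 → ∀ M : ℕ, ∃ (Q : ℕ) (C : ℝ), ∀ N : ℕ, 1 ≤ N →
      ‖(b μ N : ℂ) - ∫ θ in (-((N : ℝ) ^ (-α)))..((N : ℝ) ^ (-α)),
        gf (b μ) (pt N θ) * kernel γ Q N θ‖ ≤ C * (N : ℝ) ^ (-(M : ℝ))) ∧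
    ∀ α : ℝ, 0 < α → α < 1 / 2 → ∀ (k : ℕ) (β : ℝ), β < k → ∀ (m : ℕ) (a e : Fin m → ℝ),
      ((∀ ε : ℝ, 0 < ε → ∃ s₀ : ℝ, 0 < s₀ ∧ ∀ s ∈ region α s₀,
          ‖diffGF μ k a e s‖ ≤ ε * ‖s‖ ^ (-((k : ℝ) - β + 1))) →
        (fun n => b μ n - comparison a e n) =o[atTop] fun n : ℕ => (n : ℝ) ^ (-β)) ∧
      ((∃ C s₀ : ℝ, 0 < s₀ ∧ ∀ s ∈ region α s₀,
          ‖diffGF μ k a e s‖ ≤ C * ‖s‖ ^ (-((k : ℝ) - β + 1))) →
        (fun n => b μ n - comparison a e n) =O[atTop] fun n : ℕ => (n : ℝ) ^ (-β)) := by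
  obtain ⟨μ, hμ, hlim, hpos, ⟨C, hC⟩, hf⟩ := Pool.Agent.H16TT.t_POLY
  refine ⟨μ, hμ, hlim, ?_⟩
  have hb : ∀ n, 1 ≤ n → 0 < b μ n := fun n hn => div_pos (hpos n hn) (by positivity)
  exact Pool.Agent.H16TT.general (b := b μ) hb hf Pool.Agent.H16TT.t_LOG (K := C) (B := 0)
    (fun n hn => by rw [pow_zero, mul_one]; exact hC n hn)

end Pool.Agent.Results.MP_376faf_co.GeneratingFunctionWindow
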