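import Pool.Agent.H98P.Xi

/-!
Self-avoiding polygons on the square lattice: lower bounds for infinitely many perimeters.
-/

set_option autoImplicit false

namespace Pool.Agent.Results.MP_376faf_co.HyperscalingLower

open Filter Topology

/-- `f` is an `n`-step self-avoiding walk on `ℤ²` started at the origin -/
def IsSAW (n : ℕ) (f : Fin (n + 1) → ℤ × ℤ) : Prop :=
  f 0 = (0, 0) ∧
  (∀ i : Fin n, |(f i.succ).1 - (f i.castSucc).1| + |(f i.succ).2 - (f i.castSucc).2| = 1) ∧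
  Function.Injective f

/-- `c_n`: the number of `n`-step self-avoiding walks from the origin -/
noncomputable def c (n : ℕ) : ℕ := Nat.card {f : Fin (n + 1) → ℤ × ℤ // IsSAW n f}

/-- `c_n(x)`: the number of `n`-step self-avoiding walks from the origin to `x` -/
noncomputable def cx (n : ℕ) (x : ℤ × ℤ) : ℕ :=
  Nat.card {f : Fin (n + 1) → ℤ × ℤ // IsSAW n f ∧ f (Fin.last n) = x}

/-- the two-point function `G_z(x) = ∑_n c_n(x) z^n` -/
noncomputable def G (z : ℝ) (x : ℤ × ℤ) : ℝ := ∑' n : ℕ, (cx n x : ℝ) * z ^ n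

/-- a closed nearest-neighbour loop on `ℤ²` with `m` steps, rooted at the origin and oriented,
that visits no vertex twice -/
def IsLoop (m : ℕ) (f : ZMod m → ℤ × ℤ) : Prop :=
  f 0 = 0 ∧ Function.Injective f ∧
    ∀ i : ZMod m, |(f (i + 1)).1 - (f i).1| + |(f (i + 1)).2 - (f i).2| = 1

/-- the number of self-avoiding polygons of perimeter `2n` on `ℤ²` up to translation: the number
of rooted oriented loops with `2n` steps, divided by `4n` (the choices of the starting point and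
of the orientation) -/
noncomputable def p (n : ℕ) : ℝ :=
  (Nat.card {f : ZMod (2 * n) → ℤ × ℤ // IsLoop (2 * n) f} : ℝ) / (4 * (n : ℝ))

/-- the number of self-avoiding polygons of perimeter `2n` and of width (horizontal extent) at
least `R`, up to translation -/
noncomputable def pw (n R : ℕ) : ℝ :=
  (Nat.card {f : ZMod (2 * n) → ℤ × ℤ // IsLoop (2 * n) f ∧
    ∃ i j, (R : ℤ) ≤ (f i).1 - (f j).1} : ℝ) / (4 * (n : ℝ))

theorem c_eq (n : ℕ) : c n = Pool.Agent.TH795.EP.c n := Pool.Agent.TH795.EP2.card_walks n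

theorem cx_eq (n : ℕ) (x : ℤ × ℤ) : cx n x = Pool.Agent.TH795.EP.a n x.1 x.2 :=
  Pool.Agent.TH795.EP2.card_walks_to n x

theorem G_eq (z : ℝ) (k : ℕ) : G z ((k : ℤ), 0) = Pool.Agent.Y981.L2.Gz z k 0 := by
  unfold G Pool.Agent.Y981.L2.Gz
  apply tsum_congr
  intro n
  rw [cx_eq]

theorem p_eq (n : ℕ) : p n / H981.mu ^ (2 * n) = Pool.Agent.W870.Pg.Fp n := rfl

theorem pw_eq (n R : ℕ) : pw n R / H981.mu ^ (2 * n) = Pool.Agent.H98P.lw (2 * n) R := by
  unfold pw Pool.Agent.H98P.lw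
  push_cast
  rw [show (2 : ℝ) * (2 * n) = 4 * n by ring]
  rfl

theorem xi_eq (n : ℕ) : Pool.Agent.Y981.L2.xi (Real.exp (-1 / (2 * n)) / H981.mu) =
    Pool.Agent.H98P.X n := by
  unfold Pool.Agent.Y981.L2.xi Pool.Agent.H98P.X
  have e := Pool.Agent.Y981.L2.e_z (1 / (2 * (n : ℝ)))
  have e2 : -(1 / (2 * (n : ℝ))) = -1 / (2 * n) := by ring
  rw [e2] at e
  rw [e]

/-- **Theorem.** Let `μ = lim c_n^(1/n)`, let `ξ(z)` be the correlation length of the self-avoiding
walk for `0 < z < 1/μ`, and write `ξ_n = ξ(e^(-1/(2n)) / μ)`.  Let `P(R)` be the sum of `μ^(-|π|)`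
over the self-avoiding polygons `π` of width at least `R`, up to translation.
(1) `P(R)` is finite and the sum of `√(R P(R))` over `R` diverges.
(2) The sum of `p_{2n} μ^(-2n) ξ_n³ (log n)^8` over `n` diverges, and
`p_{2n} ≥ μ^(2n) / (n ξ_n³ (log n)^10)` for infinitely many `n`.
(3) There is `a > 0` such that `p_{2n} ≥ μ^(2n) n^(-4 + a / log log n)` for infinitely many `n`.
(4) If `p_{2n} μ^(-2n) n^θ` converges to a positive number then `θ < 4`.
(5) If `p_{2n} = μ^(2n) n^(-θ + o(1))` and `ξ_n = n^(ν + o(1))` then `θ ≤ 1 + 3 ν`. -/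
theorem result : ∃ (μ : ℝ) (ξ : ℝ → ℝ), 0 < μ ∧
    Tendsto (fun n : ℕ => (c n : ℝ) ^ (1 / (n : ℝ))) atTop (𝓝 μ) ∧
    (∀ z : ℝ, 0 < z → z < 1 / μ → 0 < ξ z ∧
      Tendsto (fun k : ℕ => - Real.log (G z ((k : ℤ), 0)) / k) atTop (𝓝 (1 / ξ z))) ∧
    ((∀ R : ℕ, Summable fun n : ℕ => pw n R / μ ^ (2 * n)) ∧
      ¬ Summable (fun R : ℕ => Real.sqrt (R * ∑' n : ℕ, pw n R / μ ^ (2 * n)))) ∧
    (¬ Summable (fun n : ℕ => p n / μ ^ (2 * n) * ξ (Real.exp (-1 / (2 * n)) / μ) ^ 3 *
        Real.log n ^ 8) ∧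
      ∃ᶠ n : ℕ in atTop,
        μ ^ (2 * n) / (n * ξ (Real.exp (-1 / (2 * n)) / μ) ^ 3 * Real.log n ^ 10) ≤ p n) ∧
    (∃ a : ℝ, 0 < a ∧ ∃ᶠ n : ℕ in atTop,
      μ ^ (2 * n) * (n : ℝ) ^ (-4 + a / Real.log (Real.log n)) ≤ p n) ∧
    (∀ θ A : ℝ, 0 < A →
      Tendsto (fun n : ℕ => p n / μ ^ (2 * n) * (n : ℝ) ^ θ) atTop (𝓝 A) → θ < 4) ∧
    (∀ θ ν : ℝ,
      Tendsto (fun n : ℕ => Real.log (p n / μ ^ (2 * n)) / Real.log n) atTop (𝓝 (-θ)) →
      Tendsto (fun n : ℕ => Real.log (ξ (Real.exp (-1 / (2 * n)) / μ)) / Real.log n) atTop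
        (𝓝 ν) → θ ≤ 1 + 3 * ν) := by
  have hmu := H981.mu_pos
  refine ⟨H981.mu, Pool.Agent.Y981.L2.xi, hmu, ?_, ?_, ⟨?_, ?_⟩, ⟨?_, ?_⟩, ?_, ?_, ?_⟩
  · have h := H981.tendsto_root
    refine h.congr ?_
    intro n
    rw [c_eq, Pool.Agent.TH795.EP.c_eq]
  · intro z hz hz1
    have he : 0 < -Real.log (z * H981.mu) := by
      have h1 : z * H981.mu < 1 := by rwa [lt_div_iff₀ hmu] at hz1
      have h2 := Real.log_neg (mul_pos hz hmu) h1
      linarith
    have hm := Pool.Agent.Y981.L2.mass_pos he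
    constructor
    · unfold Pool.Agent.Y981.L2.xi
      positivity
    · have h := Pool.Agent.Y981.L2.G_tendsto hz hz1
      unfold Pool.Agent.Y981.L2.xi
      rw [one_div_one_div]
      refine h.congr ?_
      intro k
      rw [G_eq]
  · intro R
    simp_rw [pw_eq]
    exact Pool.Agent.H98P.lw_even_summable R
  · simp_rw [pw_eq, ← Pool.Agent.H98P.PR_eq]
    exact Pool.Agent.H98P.core'
  · simp_rw [p_eq, xi_eq, mul_assoc]
    exact Pool.Agent.H98P.xi_sum
  · refine Pool.Agent.H98P.xi_freq.mono fun n hn => ?_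
    rw [← p_eq, le_div_iff₀ (pow_pos hmu _)] at hn
    rw [xi_eq]
    refine le_trans (le_of_eq ?_) hn
    ring
  · obtain ⟨a, ha, h⟩ := Pool.Agent.H98P.pow_freq
    refine ⟨a, ha, h.mono fun n hn => ?_⟩
    rw [← p_eq, le_div_iff₀ (pow_pos hmu _)] at hn
    rw [mul_comm]
    exact hn
  · intro θ A hA hlim
    by_contra hθ
    push Not at hθ
    obtain ⟨a, ha, hf⟩ := Pool.Agent.H98P.pow_freq
    -- `n^(a / log log n)` tends to infinity
    have h2 : ∀ᶠ x : ℝ in atTop, x ^ 1 * Real.exp (-x) < a / (|Real.log (A + 1)| + 1) :=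
      (Real.tendsto_pow_mul_exp_neg_atTop_nhds_zero 1).eventually_lt_const (by positivity)
    have h3 := Pool.Agent.H98P.loglog_nat.eventually h2
    have h4 := Pool.Agent.H98P.loglog_nat.eventually_ge_atTop 1
    have h5 := hlim.eventually_lt_const (show A < A + 1 by linarith)
    obtain ⟨n, hn, h3, h4, h5, hn3⟩ :=
      (hf.and_eventually (h3.and (h4.and (h5.and (eventually_ge_atTop 3))))).exists
    have hn3' : (3 : ℝ) ≤ n := by exact_mod_cast hn3
    have hn0 : (0 : ℝ) < n := by linarith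
    rw [p_eq] at h5
    have h6 : (n : ℝ) ^ (a / Real.log (Real.log n)) < A + 1 := by
      refine lt_of_le_of_lt ?_ h5
      calc (n : ℝ) ^ (a / Real.log (Real.log n)) ≤
            (n : ℝ) ^ (-4 + a / Real.log (Real.log n) + θ) := by
            apply Real.rpow_le_rpow_of_exponent_le (by linarith)
            linarith
        _ = (n : ℝ) ^ (-4 + a / Real.log (Real.log n)) * (n : ℝ) ^ θ := Real.rpow_add hn0 _ _
        _ ≤ _ := mul_le_mul_of_nonneg_right hn (Real.rpow_nonneg hn0.le _)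
    have h7 := Real.log_lt_log (Real.rpow_pos_of_pos hn0 _) h6
    rw [Real.log_rpow hn0] at h7
    have hL0 : 0 < Real.log n := Real.log_pos (by linarith)
    have hL : Real.log n = Real.exp (Real.log (Real.log n)) := (Real.exp_log hL0).symm
    obtain ⟨l, hl⟩ : ∃ l, l = Real.log (Real.log n) := ⟨_, rfl⟩
    rw [← hl] at h3 h4 h7 hL
    rw [hL] at h7
    have hl0 : 0 < l := by linarith
    have hD : 0 < |Real.log (A + 1)| + 1 := by positivity
    rw [pow_one, Real.exp_neg, ← div_eq_mul_inv, div_lt_div_iff₀ (Real.exp_pos l) hD] at h3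
    have h8 : |Real.log (A + 1)| + 1 < a / l * Real.exp l := by
      rw [div_mul_eq_mul_div, lt_div_iff₀ hl0]
      linarith
    have := le_abs_self (Real.log (A + 1))
    linarith
  · intro θ ν h1 h2
    simp_rw [p_eq] at h1
    simp_rw [xi_eq] at h2
    by_contra hcon
    push Not at hcon
    obtain ⟨ε, hε⟩ : ∃ ε, ε = (θ - 1 - 3 * ν) / 8 := ⟨_, rfl⟩
    have hε0 : 0 < ε := by rw [hε]; linarith
    have e1 := h1.eventually_lt_const (show -θ < -θ + ε by linarith)
    have e2 := h2.eventually_lt_const (show ν < ν + ε by linarith)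
    have h3 : ∀ᶠ x : ℝ in atTop, x ^ 1 * Real.exp (-x) < ε / 10 :=
      (Real.tendsto_pow_mul_exp_neg_atTop_nhds_zero 1).eventually_lt_const (by positivity)
    have e3 := Pool.Agent.H98P.loglog_nat.eventually h3
    obtain ⟨n, hn, e1, e2, e3, hn3⟩ := (Pool.Agent.H98P.xi_freq.and_eventually
      (e1.and (e2.and (e3.and (eventually_ge_atTop 3))))).exists
    have hn3' : (3 : ℝ) ≤ n := by exact_mod_cast hn3
    have hn0 : (0 : ℝ) < n := by linarith
    have hL0 : 0 < Real.log n := Real.log_pos (by linarith)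
    have hX := Pool.Agent.H98P.X_pos (show 1 ≤ n by omega)
    have hF := Pool.Agent.W870.Pg.Fp_pos (show 2 ≤ n by omega)
    rw [div_lt_iff₀ hL0] at e1 e2
    have h4 := Real.log_le_log (by positivity) hn
    rw [one_div, Real.log_inv, Real.log_mul (by positivity) (by positivity),
      Real.log_mul (by positivity) (by positivity), Real.log_pow, Real.log_pow] at h4
    push_cast at h4
    have hL : Real.log n = Real.exp (Real.log (Real.log n)) := (Real.exp_log hL0).symm
    rw [pow_one, Real.exp_neg, ← div_eq_mul_inv, ← hL, div_lt_iff₀ hL0] at e3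
    nlinarith

end Pool.Agent.Results.MP_376faf_co.HyperscalingLower
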