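import Pool.Agent.H78AC.PolyCore
import Pool.Agent.H78AC.ANA1
import Pool.Agent.H78AC.ANA2
import Pool.Agent.H78AC.SEG

/-!
Self-avoiding polygons on the square lattice: behaviour of the continued generating function at its
two singular points.
-/

set_option autoImplicit false

namespace Pool.Agent.Results.MP_376faf_co.SquareRootModulus

open Filter Topology

/-- `ω` is an `n`-step self-avoiding walk on `ℤ²` started at the origin. -/
def IsSAW (n : ℕ) (ω : Fin (n + 1) → ℤ × ℤ) : Prop :=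
  ω 0 = (0, 0) ∧
  (∀ i : Fin n, |(ω i.succ).1 - (ω i.castSucc).1| + |(ω i.succ).2 - (ω i.castSucc).2| = 1) ∧
  Function.Injective ω

/-- the number of `n`-step self-avoiding walks on `ℤ²` started at the origin -/
noncomputable def c (n : ℕ) : ℕ := {ω | IsSAW n ω}.ncard

/-- the number of self-avoiding polygons of perimeter `2n` on `ℤ²` up to translation: the number
of injective nearest-neighbour closed loops `f : ℤ/2n → ℤ²` with `f 0 = 0`, divided by `4n` (the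
choices of the starting point and of the orientation) -/
noncomputable def p (n : ℕ) : ℝ :=
  ((Nat.card {f : ZMod (2*n) → ℤ × ℤ // f 0 = 0 ∧ Function.Injective f ∧
    ∀ i : ZMod (2*n), |(f (i+1)).1 - (f i).1| + |(f (i+1)).2 - (f i).2| = 1} : ℕ) : ℝ)
    / (4 * (n:ℝ))

/-- `cos (2 arg z)` for `z ≠ 0` -/
noncomputable def cos2 (z : ℂ) : ℝ := (z ^ 2).re / ‖z‖ ^ 2

/-- The domain `|z| < (1 + δ (1 - cos (2 arg z))) / μ`: the disc of convergence enlarged at all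
points of the circle of convergence except `±1/μ`. -/
def Dom (μ δ : ℝ) : Set ℂ := {z | μ * ‖z‖ < 1 + δ * (1 - cos2 z)}

/-- `F` extends the generating function `∑_{n ≥ 2} p_{2n} z^(2n)` from the disc to `Dom μ δ`, and `S` is its
limit at `±1/μ`, with modulus of continuity `K |1 - (μ z)²|^(1/2)` in the whole domain; the
derivative is at most `K / |1 - (μ z)²|`. -/
def Extends (μ δ K S : ℝ) (F : ℂ → ℂ) : Prop :=
  DifferentiableOn ℂ F (Dom μ δ) ∧
  (∀ z : ℂ, μ * ‖z‖ < 1 → HasSum (fun n => (p (n + 2) : ℂ) * z ^ (2 * (n + 2))) (F z)) ∧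
  ∀ z ∈ Dom μ δ, ‖F z - (S : ℂ)‖ ≤ K * Real.sqrt ‖1 - ((μ : ℂ) * z) ^ 2‖ ∧
    ‖deriv F z‖ ≤ K / ‖1 - ((μ : ℂ) * z) ^ 2‖

open Pool.Agent.N929.AC Pool.Agent.H78AC

lemma p_eq (n : ℕ) : p n = H981.PP n := rfl

lemma pv_two (n : ℕ) : pv (2 * (n + 2)) = p (n + 2) := by
  unfold pv
  rw [if_pos ⟨by simp, by omega⟩, p_eq]
  congr 1
  omega

lemma hasSum_pv {E : Type} [AddCommMonoid E] [TopologicalSpace E] (G : ℕ → E)
    (hG : ∀ m, pv m = 0 → G m = 0) (S : E) :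
    HasSum (fun n => G (2 * (n + 2))) S ↔ HasSum G S := by
  have hinj : Function.Injective (fun n : ℕ => 2 * (n + 2)) := fun a b h => by
    simp only at h
    omega
  refine hinj.hasSum_iff fun m hm => hG m ?_
  unfold pv
  rw [if_neg]
  rintro ⟨he, h4⟩
  apply hm
  obtain ⟨k, hk⟩ := he
  exact ⟨k - 2, by simp only; omega⟩

/-- **Theorem.** Let `μ` be the connective constant of `ℤ²`. The sum `S` of `p_{2n} μ^(-2n)`, `n ≥ 2`,
is finite, and for some `δ > 0` and `K` the generating function `∑_{n ≥ 2} p_{2n} z^(2n)` extends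
holomorphically from the disc `|z| < 1/μ` to a function `F` on the connected open set `Dom μ δ`,
which contains all points of the circle `|z| = 1/μ` except `±1/μ`, with
`|F z - S| ≤ K |1 - (μ z)²|^(1/2)` and `|F' z| ≤ K / |1 - (μ z)²|` for all `z` in `Dom μ δ`. -/
theorem result : ∃ μ : ℝ, 1 ≤ μ ∧
    Tendsto (fun n : ℕ => (c n : ℝ) ^ (1 / (n : ℝ))) atTop (𝓝 μ) ∧
    ∃ S : ℝ, HasSum (fun n => p (n + 2) / μ ^ (2 * (n + 2))) S ∧
    ∃ δ : ℝ, 0 < δ ∧
    (IsOpen (Dom μ δ) ∧ IsPreconnected (Dom μ δ) ∧ (∀ z : ℂ, μ * ‖z‖ < 1 → z ∈ Dom μ δ) ∧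
      ∀ z : ℂ, μ * ‖z‖ = 1 → z ≠ ((1 / μ : ℝ) : ℂ) → z ≠ ((-(1 / μ) : ℝ) : ℂ) → z ∈ Dom μ δ) ∧
    ∃ (F : ℂ → ℂ) (K : ℝ), Extends μ δ K S F := by
  obtain ⟨μ, hμ, hlim, hsum, δ, hδ, ⟨d1, d2, d3, d4⟩, F, ⟨h1, h2⟩, K, h3⟩ :=
    poly_core ANA1_holds ANA2_holds SEG_holds
  refine ⟨μ, hμ, hlim, ∑' m, pv m / μ ^ m, ?_, δ, hδ, ⟨d1, d2, d3, fun z hz z1 z2 => ?_⟩, F, K,
    h1, fun z hz => ?_, h3⟩
  · have k1 := (hasSum_pv (fun m => pv m / μ ^ m) (fun m hm => by rw [hm, zero_div])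
      (∑' m, pv m / μ ^ m)).2 hsum.hasSum
    simp only [pv_two] at k1
    exact k1
  · refine d4 z hz fun h3 => ?_
    have hn : ‖z‖ = 1 / μ := by field_simp; linarith
    rw [hn] at h3
    rcases sq_eq_sq_iff_eq_or_eq_neg.1 h3 with h4 | h4
    · exact z1 h4
    · exact z2 (by rw [h4]; push_cast; rfl)
  · have k1 := (hasSum_pv (fun m => (pv m : ℂ) * z ^ m) (fun m hm => by rw [hm]; simp)
      (F z)).2 (h2 z hz)
    simp only [pv_two] at k1
    exact k1

end Pool.Agent.Results.MP_376faf_co.SquareRootModulus
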